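import Pool.Agent.Helper65.JL.Stmts

set_option autoImplicit false

open Set Filter Topology Pool.Agent.Helper86.TK Pool.Agent.Helper65.JL

namespace Pool.Agent.Helper84.JL

theorem ccm_app_le {Γ : Type} (a : E2 Γ) (x : Γ) : |a x| ≤ ‖a‖ := by
  have := lp.norm_apply_le_norm (p := 2) (by norm_num) a x
  rwa [Real.norm_eq_abs] at this

theorem ccm_app_le' (b : Ei) (t : T) : |b t| ≤ ‖b‖ := by
  have := lp.norm_apply_le_norm (p := ⊤) (by norm_num) b t
  rwa [Real.norm_eq_abs] at this

theorem ccm_S_empty {Γ : Type} (r : Γ → ℕ → Bool) (η : Γ → ℝ) (g : Γ → ℕ) (a : Γ → ℝ) (t : T) :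
    S r η ∅ g a t = 0 := by
  unfold S
  simp

/-- the coordinate of the first component as a continuous functional -/
noncomputable def ccm_c1 {Γ : Type} (r : Γ → ℕ → Bool) (η : Γ → ℝ) (x : Γ) :
    StrongDual ℝ (XX r η) :=
  LinearMap.mkContinuous
    { toFun := fun p => p.1.1 x
      map_add' := fun p q => rfl
      map_smul' := fun c p => rfl } 1 (fun p => by
        rw [one_mul, Real.norm_eq_abs]
        refine (ccm_app_le p.1.1 x).trans ?_
        exact norm_fst_le p.1)

noncomputable def ccm_c2 {Γ : Type} (r : Γ → ℕ → Bool) (η : Γ → ℝ) (t : T) :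
    StrongDual ℝ (XX r η) :=
  LinearMap.mkContinuous
    { toFun := fun p => p.1.2 t
      map_add' := fun p q => rfl
      map_smul' := fun c p => rfl } 1 (fun p => by
        rw [one_mul, Real.norm_eq_abs]
        refine (ccm_app_le' p.1.2 t).trans ?_
        exact norm_snd_le p.1)

theorem ccm_weak {Y : Type} [NormedAddCommGroup Y] [NormedSpace ℝ Y] (φ : StrongDual ℝ Y) :
    Continuous fun w : WeakSpace ℝ Y => φ ((toWeakSpace ℝ Y).symm w) :=
  WeakBilin.eval_continuous (topDualPairing ℝ Y).flip φ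

theorem st_CCM (h1 : ST_SVAL) (h2 : ST_C0) : ST_CCM := by
  intro Γ r η hP d f hS K hK hB hsupp
  have hval : ∀ t : T, (∃ x : Γ, ∀ p : XX r η, cp r η d f p t = p.1.2 t - p.1.1 x * η x) ∨
      ∀ p : XX r η, cp r η d f p t = p.1.2 t := by
    intro t
    rcases h1 Γ r η d f hS t with ⟨x, _, _, h⟩ | ⟨_, h⟩
    · refine Or.inl ⟨x, fun p => ?_⟩
      unfold cp SS
      rw [ccm_S_empty, add_zero, h]
    · refine Or.inr fun p => ?_
      unfold cp SS
      rw [ccm_S_empty, add_zero, h, sub_zero]
  refine ⟨?_, ?_, ?_⟩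
  · have hc : Continuous fun w : WeakSpace ℝ (XX r η) =>
        cp r η d f ((toWeakSpace ℝ (XX r η)).symm w) := by
      refine continuous_pi fun t => ?_
      rcases hval t with ⟨x, h⟩ | h
      · have h3 : (fun w : WeakSpace ℝ (XX r η) =>
            cp r η d f ((toWeakSpace ℝ (XX r η)).symm w) t) =
            fun w : WeakSpace ℝ (XX r η) => ccm_c2 r η t ((toWeakSpace ℝ (XX r η)).symm w) -
              ccm_c1 r η x ((toWeakSpace ℝ (XX r η)).symm w) * η x := by
          funext w
          exact h _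
        rw [h3]
        exact (ccm_weak _).sub ((ccm_weak _).mul continuous_const)
      · have h3 : (fun w : WeakSpace ℝ (XX r η) =>
            cp r η d f ((toWeakSpace ℝ (XX r η)).symm w) t) =
            fun w : WeakSpace ℝ (XX r η) =>
              ccm_c2 r η t ((toWeakSpace ℝ (XX r η)).symm w) := by
          funext w
          exact h _
        rw [h3]
        exact ccm_weak _
    have h4 := IsCompact.image hK hc
    rw [Set.image_image] at h4
    have h5 : (fun p : XX r η => cp r η d f
        ((toWeakSpace ℝ (XX r η)).symm (toWeakSpace ℝ (XX r η) p))) = cp r η d f := by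
      funext p
      rw [LinearEquiv.symm_apply_apply]
    rw [h5] at h4
    exact h4
  · rintro _ ⟨p, hp, rfl⟩
    have h6 := h2 Γ r η hP d ∅ f f (Set.disjoint_empty d) hS
      (fun x hx => absurd hx (Set.notMem_empty x)) p.1 p.2
      (fun x hx => hsupp p hp x (fun h => hx (Or.inl h)))
    exact h6
  · rintro _ ⟨p, hp, rfl⟩ t
    have hb := hB p hp
    have hn : ‖p.1‖ ≤ 1 := hb
    have e2 : |p.1.2 t| ≤ 1 := (ccm_app_le' p.1.2 t).trans ((norm_snd_le p.1).trans hn)
    rcases hval t with ⟨x, h⟩ | h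
    · rw [h]
      have e1 : |p.1.1 x| ≤ 1 := (ccm_app_le p.1.1 x).trans ((norm_fst_le p.1).trans hn)
      have e3 : |p.1.1 x * η x| ≤ 1 := by
        rw [abs_mul, abs_of_pos (hP.2 x).1]
        have := (hP.2 x).2
        nlinarith [abs_nonneg (p.1.1 x), (hP.2 x).1]
      calc |p.1.2 t - p.1.1 x * η x| ≤ |p.1.2 t| + |p.1.1 x * η x| := abs_sub _ _
        _ ≤ 2 := by linarith
    · rw [h]
      linarith

end Pool.Agent.Helper84.JL
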